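import Pool.Agent.Y148.OD.Stm3
import Pool.Agent.Y148.OD.Basic
import Pool.Agent.Y148.OD.Spec

/-!
# Project OD: large spaces of functions on a curve with few zeros (OD-14)
-/

set_option autoImplicit false

namespace Pool.Agent.Y758.OD

open Pool.Agent.Y148.OD

section field

variable {k E : Type} [Field k] [CharZero k] [Field E] [Algebra k E]

/-- A function field of one variable is generated by a transcendental element and a primitive
element. -/
theorem exists_xy (hfg : (⊤ : IntermediateField k E).FG) (htr : Algebra.trdeg k E = 1) :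
    ∃ x y : E, Transcendental k x ∧ Algebra.IsAlgebraic (Algebra.adjoin k {x}) E ∧
      IntermediateField.adjoin k {x, y} = ⊤ := by
  obtain ⟨s, hs⟩ := exists_isTranscendenceBasis k E
  have h1 := hs.cardinalMk_eq_trdeg
  rw [htr, Cardinal.eq_one_iff_unique] at h1
  obtain ⟨hsub, ⟨x, hxs⟩⟩ := h1
  have hsx : s = {x} := by
    ext z
    constructor
    · intro hz
      have := congrArg Subtype.val (Subsingleton.elim (⟨z, hz⟩ : s) ⟨x, hxs⟩)
      exact this
    · rintro rfl
      exact hxs
  have htx : Transcendental k x := hs.1.transcendental ⟨x, hxs⟩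
  have halg := hs.isAlgebraic
  have halgf := hs.isAlgebraic_field
  rw [Subtype.range_coe, hsx] at halg halgf
  have hess : Algebra.EssFiniteType k E := IntermediateField.fg_top_iff.1 hfg
  have hess2 : Algebra.EssFiniteType (IntermediateField.adjoin k {x}) E :=
    Algebra.EssFiniteType.of_comp k _ _
  have hfin : FiniteDimensional (IntermediateField.adjoin k {x}) E := by
    obtain ⟨S, hS⟩ := IntermediateField.fg_top_iff.2 hess2
    have h2 : FiniteDimensional (IntermediateField.adjoin k {x})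
        (IntermediateField.adjoin (IntermediateField.adjoin k {x}) (S : Set E)) :=
      IntermediateField.finiteDimensional_adjoin fun z _ =>
        (Algebra.IsAlgebraic.isAlgebraic z).isIntegral
    rw [hS] at h2
    exact LinearEquiv.finiteDimensional
      (IntermediateField.topEquiv (F := IntermediateField.adjoin k {x}) (E := E)).toLinearEquiv
  obtain ⟨y, hy⟩ := Field.exists_primitive_element (IntermediateField.adjoin k {x}) E
  refine ⟨x, y, htx, halg, ?_⟩
  have h3 := IntermediateField.adjoin_adjoin_left k {x} ({y} : Set E)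
  rw [hy] at h3
  rw [Set.insert_eq, ← h3]
  rfl

end field

section bivariate

variable {k E F : Type} [Field k] [Field E] [Algebra k E] [Field F] [Algebra k F]

/-- Evaluation of a polynomial in two variables. -/
noncomputable def ev (x y : E) : Polynomial (Polynomial k) →+* E :=
  Polynomial.eval₂RingHom (Polynomial.eval₂RingHom (algebraMap k E) x) y

theorem ev_apply (x y : E) (f : Polynomial (Polynomial k)) :
    ev x y f = (f.map (Polynomial.mapRingHom (algebraMap k E))).evalEval x y :=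
  Polynomial.eval₂_eval₂RingHom_apply _ _ _ _

theorem ev_map (τ : E →ₐ[k] F) (x y : E) (f : Polynomial (Polynomial k)) :
    τ (ev x y f) = ev (τ x) (τ y) f := by
  have h1 : (τ : E →+* F).comp (ev x y : Polynomial (Polynomial k) →+* E) =
      ev (τ x) (τ y) := by
    ext
    · simp [ev]
    · simp [ev]
    · simp [ev]
  exact congrFun (congrArg DFunLike.coe h1) f

theorem ev_monomial (x y : E) (a b : ℕ) (c : k) :
    ev x y (Polynomial.monomial b (Polynomial.monomial a c)) = algebraMap k E c * x ^ a * y ^ b := by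
  simp [ev, Polynomial.eval₂_monomial]

theorem ev_sum (x y : E) (f : Polynomial (Polynomial k)) (n : ℕ) (hn : f.natDegree < n) :
    ev x y f = ∑ b ∈ Finset.range n, Polynomial.aeval x (f.coeff b) * y ^ b := by
  have h1 : ev x y f = Polynomial.eval₂ (Polynomial.eval₂RingHom (algebraMap k E) x) y f := rfl
  rw [h1, Polynomial.eval₂_eq_sum_range' _ hn]
  rfl

/-- A relation of minimal degree in the second variable. -/
theorem exists_min (x y : E) (hy : IsAlgebraic (Algebra.adjoin k {x}) y) :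
    ∃ f : Polynomial (Polynomial k), f ≠ 0 ∧ ev x y f = 0 ∧
      ∀ f' : Polynomial (Polynomial k), f' ≠ 0 → ev x y f' = 0 → f.natDegree ≤ f'.natDegree := by
  classical
  have hex : ∃ n : ℕ, ∃ f : Polynomial (Polynomial k), f.natDegree = n ∧ f ≠ 0 ∧ ev x y f = 0 := by
    obtain ⟨p, hp0, hp⟩ := hy
    have hmem : ∀ q : Polynomial k, Polynomial.aeval x q ∈ Algebra.adjoin k {x} := fun q => by
      rw [Algebra.adjoin_singleton_eq_range_aeval]
      exact ⟨q, rfl⟩
    let φ : Polynomial k →ₐ[k] Algebra.adjoin k {x} :=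
      (Polynomial.aeval x : Polynomial k →ₐ[k] E).codRestrict _ hmem
    have hφ : Function.Surjective (φ : Polynomial k →+* Algebra.adjoin k {x}) := by
      rintro ⟨c, hc⟩
      rw [Algebra.adjoin_singleton_eq_range_aeval] at hc
      obtain ⟨q, rfl⟩ := hc
      exact ⟨q, rfl⟩
    obtain ⟨f, hf⟩ := Polynomial.map_surjective (φ : Polynomial k →+* Algebra.adjoin k {x}) hφ p
    refine ⟨f.natDegree, f, rfl, ?_, ?_⟩
    · rintro rfl
      exact hp0 (by rw [← hf, Polynomial.map_zero])
    · rw [← hp, ← hf, Polynomial.aeval_def, Polynomial.eval₂_map]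
      rfl
  obtain ⟨f, hf, hf0, hfe⟩ := Nat.find_spec hex
  refine ⟨f, hf0, hfe, fun f' hf' hfe' => ?_⟩
  rw [hf]
  exact Nat.find_min' hex ⟨f', rfl, hf', hfe'⟩

theorem linIndep {x y : E} {f : Polynomial (Polynomial k)}
    (hmin : ∀ f' : Polynomial (Polynomial k), f' ≠ 0 → ev x y f' = 0 →
      f.natDegree ≤ f'.natDegree) (D d : ℕ) (hd : f.natDegree = d) :
    LinearIndependent k (fun q : Fin (D + 1) × Fin d => x ^ (q.1 : ℕ) * y ^ (q.2 : ℕ)) := by
  classical
  rw [Fintype.linearIndependent_iff]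
  intro c hc
  let f' : Polynomial (Polynomial k) :=
    ∑ q : Fin (D + 1) × Fin d, Polynomial.monomial q.2 (Polynomial.monomial q.1 (c q))
  have h1 : ev x y f' = 0 := by
    rw [map_sum, ← hc]
    refine Finset.sum_congr rfl fun q _ => ?_
    rw [ev_monomial, Algebra.smul_def, mul_assoc]
  have h2 : f' = 0 := by
    by_contra hne
    have h3 := hmin f' hne h1
    rw [hd] at h3
    have h4 : f'.degree < d := by
      refine (Polynomial.degree_sum_le _ _).trans_lt ?_
      rw [Finset.sup_lt_iff (by exact WithBot.bot_lt_coe _)]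
      intro q _
      refine (Polynomial.degree_monomial_le _ _).trans_lt ?_
      exact_mod_cast q.2.2
    rw [Polynomial.degree_eq_natDegree hne] at h4
    have h5 : f'.natDegree < d := by exact_mod_cast h4
    omega
  intro q
  have h6 := congrArg (fun p => (p.coeff (q.2 : ℕ)).coeff (q.1 : ℕ)) h2
  simp only [f', Polynomial.finsetSum_coeff, Polynomial.coeff_monomial, Polynomial.coeff_zero] at h6
  rw [Finset.sum_eq_single q] at h6
  · rw [if_pos rfl, Polynomial.coeff_monomial, if_pos rfl] at h6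
    exact h6
  · intro q' _ hq'
    by_cases h7 : (q'.2 : ℕ) = q.2
    · rw [if_pos h7, Polynomial.coeff_monomial, if_neg]
      intro h8
      exact hq' (Prod.ext (Fin.ext h8) (Fin.ext h7))
    · rw [if_neg h7, Polynomial.coeff_zero]
  · intro h7
    exact absurd (Finset.mem_univ _) h7

end bivariate

section ratio

open MvPolynomial

variable {k Ω : Type} [Field k] [Field Ω] [Algebra k Ω]

theorem aeval_scale {I : Type} {P : MvPolynomial I k} {j : ℕ} (hP : P.IsHomogeneous j) (u : Ω)
    (ρ : I → Ω) : aeval (fun i => u * ρ i) P = u ^ j * aeval ρ P := by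
  classical
  rw [aeval_def, aeval_def, eval₂_eq, eval₂_eq, Finset.mul_sum]
  refine Finset.sum_congr rfl fun d hd => ?_
  have h1 : ∑ i ∈ d.support, d i = j := by
    have h2 := hP (mem_support_iff.1 hd)
    rw [← h2, Finsupp.weight_apply, Finsupp.sum]
    simp
  rw [← h1, ← Finset.prod_pow_eq_pow_sum]
  simp only [mul_pow, Finset.prod_mul_distrib]
  ring

/-- The ratios of the coordinates of a generic vector are algebraically independent. -/
theorem ratio_indep {Q : Type} [DecidableEq Q] (g : Q → Ω)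
    (hgen : ∀ (m : ℕ) (Φ : MvPolynomial Q k), Φ.IsHomogeneous m → Φ ≠ 0 → aeval g Φ ≠ 0)
    (c : Q) : AlgebraicIndependent k (fun q : {q // q ≠ c} => g q / g c) := by
  have hc : g c ≠ 0 := by
    have h1 := hgen 1 (X c) (isHomogeneous_X _ _) (X_ne_zero c)
    rwa [aeval_X] at h1
  rw [algebraicIndependent_iff]
  intro P hP
  by_contra hne
  let Φ : MvPolynomial Q k := ∑ j ∈ Finset.range (P.totalDegree + 1),
    rename Subtype.val (homogeneousComponent j P) * X c ^ (P.totalDegree - j)
  have hΦ : Φ.IsHomogeneous P.totalDegree := by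
    refine IsHomogeneous.sum _ _ _ fun j hj => ?_
    rw [Finset.mem_range] at hj
    have h1 := ((homogeneousComponent_isHomogeneous j P).rename_isHomogeneous
      (f := (Subtype.val : {q // q ≠ c} → Q))).mul
      ((isHomogeneous_X k c).pow (P.totalDegree - j))
    have h2 : j + 1 * (P.totalDegree - j) = P.totalDegree := by omega
    rwa [h2] at h1
  have hΦ0 : Φ ≠ 0 := by
    intro h0
    apply hne
    have h1 := congrArg (aeval (fun q : Q => if h : q ≠ c then (X ⟨q, h⟩ :
      MvPolynomial {q // q ≠ c} k) else 1)) h0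
    rw [map_zero, map_sum] at h1
    rw [← sum_homogeneousComponent P, ← h1]
    refine Finset.sum_congr rfl fun j _ => ?_
    rw [map_mul, map_pow, aeval_X, dif_neg (by simp), one_pow, mul_one, aeval_rename]
    have h2 : ((fun q : Q => if h : q ≠ c then (X ⟨q, h⟩ : MvPolynomial {q // q ≠ c} k) else 1) ∘
        Subtype.val) = (X : {q // q ≠ c} → MvPolynomial {q // q ≠ c} k) := by
      funext q
      simp only [Function.comp_apply]
      rw [dif_pos q.2]
    rw [h2, aeval_X_left_apply]
  apply hgen _ Φ hΦ hΦ0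
  rw [map_sum]
  have h3 : ∀ j ∈ Finset.range (P.totalDegree + 1),
      aeval g (rename Subtype.val (homogeneousComponent j P) * X c ^ (P.totalDegree - j)) =
        g c ^ P.totalDegree * aeval (fun q : {q // q ≠ c} => g q / g c)
          (homogeneousComponent j P) := by
    intro j hj
    rw [Finset.mem_range] at hj
    rw [map_mul, map_pow, aeval_X, aeval_rename]
    have h4 : (g ∘ Subtype.val : {q // q ≠ c} → Ω) =
        fun q : {q // q ≠ c} => g c * (g q / g c) := by
      funext q
      rw [Function.comp_apply]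
      field_simp
    rw [h4, aeval_scale (homogeneousComponent_isHomogeneous j P)]
    have h5 : g c ^ P.totalDegree = g c ^ j * g c ^ (P.totalDegree - j) := by
      rw [← pow_add]
      congr 1
      omega
    rw [h5]
    ring
  rw [Finset.sum_congr rfl h3, ← Finset.mul_sum, ← map_sum, sum_homogeneousComponent, hP, mul_zero]

end ratio

section rank

open MvPolynomial

variable {Ω : Type} [Field Ω]

theorem no_two (k : Subfield Ω) {D d : ℕ} (hD : 1 ≤ D) (hd : 2 ≤ d)
    (g : Fin (D + 1) × Fin d → Ω)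
    (hgen : ∀ (m : ℕ) (Φ : MvPolynomial (Fin (D + 1) × Fin d) k), Φ.IsHomogeneous m → Φ ≠ 0 →
      aeval g Φ ≠ 0) {x0 y0 y1 : Ω}
    (h0 : ∑ q, g q * x0 ^ (q.1 : ℕ) * y0 ^ (q.2 : ℕ) = 0)
    (h1 : ∑ q, g q * x0 ^ (q.1 : ℕ) * y1 ^ (q.2 : ℕ) = 0)
    (hy0 : IsAlgebraic (Algebra.adjoin k {x0}) y0)
    (hy1 : IsAlgebraic (Algebra.adjoin k {x0}) y1) : y0 = y1 := by
  classical
  by_contra hne
  obtain ⟨q0, hq0⟩ : ∃ q0 : Fin (D + 1) × Fin d, q0 = (⟨0, by omega⟩, ⟨0, by omega⟩) := ⟨_, rfl⟩
  obtain ⟨q1, hq1⟩ : ∃ q1 : Fin (D + 1) × Fin d, q1 = (⟨0, by omega⟩, ⟨1, by omega⟩) := ⟨_, rfl⟩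
  obtain ⟨c, hc⟩ : ∃ c : Fin (D + 1) × Fin d, c = (⟨1, by omega⟩, ⟨0, by omega⟩) := ⟨_, rfl⟩
  have h01 : q0 ≠ q1 := by
    rw [hq0, hq1]
    simp
  have h0c : q0 ≠ c := by
    rw [hq0, hc]
    simp
  have h1c : q1 ≠ c := by
    rw [hq1, hc]
    simp
  have hind := ratio_indep g hgen c
  have hgc : g c ≠ 0 := by
    have h2 := hgen 1 (X c) (isHomogeneous_X _ _) (X_ne_zero c)
    rwa [aeval_X] at h2
  obtain ⟨r, hr⟩ : ∃ r : Fin (D + 1) × Fin d → Ω, ∀ q, r q = g q / g c := ⟨_, fun _ => rfl⟩
  have hrel : ∀ y : Ω, ∑ q, g q * x0 ^ (q.1 : ℕ) * y ^ (q.2 : ℕ) = 0 →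
      r q0 + r q1 * y + ∑ q ∈ (Finset.univ.erase q0).erase q1,
        r q * x0 ^ (q.1 : ℕ) * y ^ (q.2 : ℕ) = 0 := by
    intro y hy
    have h2 : ∑ q, r q * x0 ^ (q.1 : ℕ) * y ^ (q.2 : ℕ) = 0 := by
      have h3 : ∑ q, r q * x0 ^ (q.1 : ℕ) * y ^ (q.2 : ℕ) =
          (∑ q, g q * x0 ^ (q.1 : ℕ) * y ^ (q.2 : ℕ)) / g c := by
        rw [Finset.sum_div]
        exact Finset.sum_congr rfl fun q _ => by rw [hr]; ring
      rw [h3, hy, zero_div]
    rw [← Finset.add_sum_erase _ _ (Finset.mem_univ q0),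
      ← Finset.add_sum_erase _ _ (Finset.mem_erase.2 ⟨Ne.symm h01, Finset.mem_univ q1⟩)] at h2
    rw [← h2, hq0, hq1]
    simp only [pow_zero, pow_one, mul_one]
    ring
  let T : Set Ω := insert x0 (r '' {q | q ≠ q0 ∧ q ≠ q1 ∧ q ≠ c})
  let A := Algebra.adjoin k T
  let B := Subalgebra.algebraicClosure A Ω
  have hx0 : x0 ∈ B := isAlgebraic_algebraMap
    (⟨x0, Algebra.subset_adjoin (Set.mem_insert _ _)⟩ : A)
  have hrest : ∀ q, q ≠ q0 → q ≠ q1 → r q ∈ B := by
    intro q h2 h3
    by_cases h4 : q = c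
    · rw [h4, hr, div_self hgc]
      exact B.one_mem
    · exact isAlgebraic_algebraMap
        (⟨r q, Algebra.subset_adjoin (Set.mem_insert_of_mem _ ⟨q, ⟨h2, h3, h4⟩, rfl⟩)⟩ : A)
  have hmono : Algebra.adjoin k {x0} ≤ A := by
    refine Algebra.adjoin_mono ?_
    rw [Set.singleton_subset_iff]
    exact Set.mem_insert _ _
  have hy0B : y0 ∈ B := hy0.tower_top_of_subalgebra_le hmono
  have hy1B : y1 ∈ B := hy1.tower_top_of_subalgebra_le hmono
  have hS : ∀ y ∈ B, ∑ q ∈ (Finset.univ.erase q0).erase q1,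
      r q * x0 ^ (q.1 : ℕ) * y ^ (q.2 : ℕ) ∈ B := by
    intro y hy
    refine B.sum_mem fun q hq => ?_
    rw [Finset.mem_erase, Finset.mem_erase] at hq
    exact B.mul_mem (B.mul_mem (hrest q hq.2.1 hq.1) (B.pow_mem hx0 _)) (B.pow_mem hy _)
  obtain ⟨S0, hS0⟩ : ∃ S0, S0 = ∑ q ∈ (Finset.univ.erase q0).erase q1,
      r q * x0 ^ (q.1 : ℕ) * y0 ^ (q.2 : ℕ) := ⟨_, rfl⟩
  obtain ⟨S1, hS1⟩ : ∃ S1, S1 = ∑ q ∈ (Finset.univ.erase q0).erase q1,
      r q * x0 ^ (q.1 : ℕ) * y1 ^ (q.2 : ℕ) := ⟨_, rfl⟩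
  have e0 := hrel y0 h0
  have e1 := hrel y1 h1
  have hS0B := hS y0 hy0B
  have hS1B := hS y1 hy1B
  rw [← hS0] at e0 hS0B
  rw [← hS1] at e1 hS1B
  have hd0 : y0 - y1 ≠ 0 := sub_ne_zero.2 hne
  have hrq1 : r q1 = (S1 - S0) * (y0 - y1)⁻¹ := by
    rw [eq_mul_inv_iff_mul_eq₀ hd0]
    linear_combination e0 - e1
  have hr1B : r q1 ∈ B := by
    rw [hrq1]
    refine B.mul_mem (B.sub_mem hS1B hS0B) ?_
    exact IsAlgebraic.inv (B.sub_mem hy0B hy1B)
  have hr0B : r q0 ∈ B := by
    have h2 : r q0 = -(r q1 * y0) - S0 := by linear_combination e0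
    rw [h2]
    exact B.sub_mem (B.neg_mem (B.mul_mem hr1B hy0B)) hS0B
  have hall : ∀ q, r q ∈ B := by
    intro q
    by_cases h2 : q = q0
    · rw [h2]; exact hr0B
    by_cases h3 : q = q1
    · rw [h3]; exact hr1B
    exact hrest q h2 h3
  let I : Set Ω := Set.range (fun q : {q // q ≠ c} => g q / g c)
  have hI1 : rk k I ≤ rk k T := by
    refine rk_le_of_isAlgebraic ?_
    rintro _ ⟨q, rfl⟩
    have h2 := hall q
    rw [hr] at h2
    exact h2
  have hI2 : rk k T ≤ T.encard := rk_le_encard _ _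
  have hcard : Fintype.card {q // q ≠ c} = Fintype.card (Fin (D + 1) × Fin d) - 1 := by
    rw [Fintype.card_subtype_compl, Fintype.card_subtype_eq]
  have hI3 : ((Fintype.card (Fin (D + 1) × Fin d) - 1 : ℕ) : ℕ∞) ≤ rk k I := by
    rw [le_rk_iff]
    refine ⟨I, Set.Subset.rfl, AlgebraicIndependent.coe_range hind, ?_⟩
    have h2 : I.encard = (Set.univ : Set {q // q ≠ c}).encard := by
      rw [← hind.injective.injOn.encard_image, Set.image_univ]
    rw [h2, Set.encard_univ, ENat.card_eq_coe_fintype_card, hcard]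
  have hT : T.encard ≤ ((Fintype.card (Fin (D + 1) × Fin d) - 3 + 1 : ℕ) : ℕ∞) := by
    refine (Set.encard_insert_le _ _).trans ?_
    rw [Nat.cast_add, Nat.cast_one]
    refine add_le_add_left ((Set.encard_image_le _ _).trans ?_) _
    have h2 : {q : Fin (D + 1) × Fin d | q ≠ q0 ∧ q ≠ q1 ∧ q ≠ c} =
        ((Finset.univ \ {q0, q1, c} : Finset (Fin (D + 1) × Fin d)) :
          Set (Fin (D + 1) × Fin d)) := by
      ext q
      simp
    rw [h2, Set.encard_coe_eq_coe_finsetCard, Finset.card_sdiff_of_subset (Finset.subset_univ _),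
      Finset.card_univ, Finset.card_eq_three.2 ⟨q0, q1, c, h01, h0c, h1c, rfl⟩]
  have hfinal := hI3.trans (hI1.trans (hI2.trans hT))
  have hbig : 4 ≤ Fintype.card (Fin (D + 1) × Fin d) := by
    rw [Fintype.card_prod, Fintype.card_fin, Fintype.card_fin]
    nlinarith
  have hfin : Fintype.card (Fin (D + 1) × Fin d) - 1 ≤
      Fintype.card (Fin (D + 1) × Fin d) - 3 + 1 := by exact_mod_cast hfinal
  omega

end rank

open MvPolynomial in
/-- OD-14. Large spaces of functions on a curve with few zeros. -/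
theorem space_of : StmRes → StmSpace := by
  intro hR Ω _ _ _ k hk hka E _ _ hfg htr
  classical
  have hk0 : CharZero k := inferInstance
  obtain ⟨x, y, hx, halg, htop⟩ := exists_xy hfg htr
  obtain ⟨f, hf0, hfe, hmin⟩ := exists_min x y (halg.isAlgebraic y)
  obtain ⟨d, hd⟩ : ∃ d, f.natDegree = d := ⟨_, rfl⟩
  obtain ⟨δ, hδ⟩ : ∃ δ, δ = ∑ b ∈ Finset.range (d + 1), (f.coeff b).natDegree := ⟨_, rfl⟩
  have hδ' : ∀ b, (f.coeff b).natDegree ≤ δ := by
    intro b
    by_cases hb : b ≤ d
    · rw [hδ]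
      exact Finset.single_le_sum (f := fun b => (f.coeff b).natDegree) (fun _ _ => Nat.zero_le _)
        (Finset.mem_range.2 (by omega))
    · rw [Polynomial.coeff_eq_zero_of_natDegree_lt (by omega), Polynomial.natDegree_zero]
      exact Nat.zero_le _
  have hd1 : 1 ≤ d := by
    by_contra hcon
    have h1 : f.natDegree = 0 := by omega
    rw [Polynomial.eq_C_of_natDegree_eq_zero h1] at hfe hf0
    have h2 : Polynomial.aeval x (f.coeff 0) = 0 := by
      rw [← hfe]
      simp [ev]
      rfl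
    have h3 : f.coeff 0 = 0 := by
      by_contra h4
      exact hx ⟨_, h4, h2⟩
    rw [h3, Polynomial.C_0] at hf0
    exact hf0 rfl
  refine ⟨(d - 1) * δ, fun N => ⟨(N + 1 + 1) * d, ?_, ?_⟩⟩
  · nlinarith
  have hlin := linIndep hmin (N + 1) d hd
  let e : Fin (N + 1 + 1) × Fin d ≃ Fin ((N + 1 + 1) * d) := finProdFinEquiv
  refine ⟨fun i => x ^ ((e.symm i).1 : ℕ) * y ^ ((e.symm i).2 : ℕ),
    hlin.comp _ e.symm.injective, fun g hg => ?_⟩
  have hgen : ∀ (m : ℕ) (Φ : MvPolynomial (Fin (N + 1 + 1) × Fin d) k), Φ.IsHomogeneous m →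
      Φ ≠ 0 → aeval (fun q => g (e q)) Φ ≠ 0 := by
    intro m Φ hΦ hΦ0
    have h1 := hg m (rename e Φ) hΦ.rename_isHomogeneous (by
      intro h2
      exact hΦ0 (rename_injective e e.injective (by rw [h2, map_zero])))
    rwa [aeval_rename] at h1
  have hsum : ∀ τ : E →ₐ[k] Ω,
      ∑ i, g i * τ (x ^ ((e.symm i).1 : ℕ) * y ^ ((e.symm i).2 : ℕ)) =
        ∑ q, g (e q) * τ x ^ (q.1 : ℕ) * τ y ^ (q.2 : ℕ) := by
    intro τ
    rw [← Equiv.sum_comp e]
    refine Finset.sum_congr rfl fun q _ => ?_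
    rw [Equiv.symm_apply_apply, map_mul, map_pow, map_pow, mul_assoc]
  have hinj : Set.InjOn (fun τ : E →ₐ[k] Ω => τ x)
      {τ | ∑ i, g i * τ (x ^ ((e.symm i).1 : ℕ) * y ^ ((e.symm i).2 : ℕ)) = 0} := by
    intro τ hτ τ' hτ' hxx
    simp only [Set.mem_ofPred_eq, hsum] at hτ hτ'
    simp only at hxx
    rw [← hxx] at hτ'
    have hrel : ∀ σ : E →ₐ[k] Ω, σ x = τ x →
        ∑ b ∈ Finset.range (d + 1), Polynomial.aeval (τ x) (f.coeff b) * σ y ^ b = 0 := by
      intro σ hσ
      have h1 := ev_map σ x y f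
      rw [hfe, map_zero, ev_sum (σ x) (σ y) f (d + 1) (by omega), hσ] at h1
      exact h1.symm
    have htx : Transcendental k (τ x) := by
      intro h1
      exact hx ((isAlgebraic_algHom_iff τ τ.toRingHom.injective).1 h1)
    have hlead : Polynomial.aeval (τ x) (f.coeff d) ≠ 0 := by
      intro h1
      refine htx ⟨f.coeff d, ?_, h1⟩
      rw [← hd]
      exact Polynomial.leadingCoeff_ne_zero.2 hf0
    have hyy : τ y = τ' y := by
      rcases Nat.lt_or_ge d 2 with h2 | h2
      · have h3 : d = 1 := by omega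
        have h4 := hrel τ rfl
        have h5 := hrel τ' hxx.symm
        rw [h3] at h4 h5 hlead
        rw [Finset.sum_range_succ, Finset.sum_range_succ, Finset.sum_range_zero] at h4 h5
        simp only [pow_zero, pow_one, mul_one, zero_add] at h4 h5
        exact mul_left_cancel₀ hlead (by linear_combination h4 - h5)
      · have halgy : ∀ σ : E →ₐ[k] Ω, σ x = τ x → IsAlgebraic (Algebra.adjoin k {τ x}) (σ y) := by
          intro σ hσ
          have hcoe : ∀ q : Polynomial k, ((Polynomial.aeval (⟨τ x,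
              Algebra.self_mem_adjoin_singleton k (τ x)⟩ : Algebra.adjoin k {τ x}) q :
                Algebra.adjoin k {τ x}) : Ω) = Polynomial.aeval (τ x) q := by
            intro q
            rw [← Subalgebra.coe_val, ← Polynomial.aeval_algHom_apply]
            rfl
          let p : Polynomial (Algebra.adjoin k {τ x}) := f.map
            (Polynomial.aeval (⟨τ x, Algebra.self_mem_adjoin_singleton k (τ x)⟩ :
              Algebra.adjoin k {τ x}) : Polynomial k →ₐ[k] Algebra.adjoin k {τ x}).toRingHom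
          refine ⟨p, ?_, ?_⟩
          · intro h0
            have h6 := congrArg (fun u => ((u.coeff d : Algebra.adjoin k {τ x}) : Ω)) h0
            simp only [p, Polynomial.coeff_map, Polynomial.coeff_zero] at h6
            exact hlead ((hcoe _).symm.trans h6)
          · have h7 := hrel σ hσ
            rw [← h7, Polynomial.aeval_def, Polynomial.eval₂_map, ← hd,
              Polynomial.eval₂_eq_sum_range]
            exact Finset.sum_congr rfl fun b _ => congrArg (· * σ y ^ b) (hcoe _)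
        exact no_two k (Nat.le_add_left 1 N) h2 (fun q => g (e q)) hgen hτ hτ'
          (halgy τ rfl) (halgy τ' hxx.symm)
    refine AlgHom.ext fun z => ?_
    have hz : z ∈ IntermediateField.adjoin k {x, y} := by
      rw [htop]
      exact IntermediateField.mem_top
    induction hz using IntermediateField.adjoin_induction with
    | mem u hu =>
      rcases hu with rfl | hu
      · exact hxx
      · rw [Set.mem_singleton_iff] at hu
        rw [hu]
        exact hyy
    | algebraMap u => rw [τ.commutes, τ'.commutes]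
    | add u v _ _ hu hv => rw [map_add, map_add, hu, hv]
    | inv u _ hu => rw [map_inv₀, map_inv₀, hu]
    | mul u v _ _ hu hv => rw [map_mul, map_mul, hu, hv]
  rw [← hinj.encard_image]
  have hres := hR Ω k f d δ (N + 1) hd hd1 hδ' (fun q => g (e q)) hgen
  refine (Set.encard_le_encard ?_).trans (hres.trans ?_)
  · rintro _ ⟨τ, hτ, rfl⟩
    refine ⟨τ y, ?_, ?_⟩
    · rw [← ev_apply, ← ev_map, hfe, map_zero]
    · simp only [Set.mem_ofPred_eq, hsum] at hτ
      exact hτ
  · have h1 : d * (N + 1) + (d - 1) * δ ≤ (N + 1 + 1) * d - 1 + (d - 1) * δ := by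
      have h2 : d * (N + 1) + 1 ≤ (N + 1 + 1) * d := by nlinarith
      omega
    exact_mod_cast h1

end Pool.Agent.Y758.OD
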